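import Pool.Agent.E8helper48.RR.Stm

/-! Third-order rational recurrences (problem MP_548f00_an): statements, fourth round, the
equation (E2) `x_{n+3} = (al + x_{n+1}) / (x_{n+1} + D x_n)`. -/

namespace RR48

open Filter Topology

/-- Piece N2ALG (algebra). `u`, `v` are the values at `I`, `S` of the affine function
`t ↦ z - (1 - z) (z - t) / (z D)`. -/
def S_N2ALG : Prop := ∀ (al D z S I u v : ℝ), 0 < al → 0 < D → 0 < z → z < 1 →
  z * ((D + 1) * z) = al + z →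
  0 ≤ (1 + D) * (2 * D - 1) * z ^ 3 + (3 - D ^ 2) * z ^ 2 - 3 * z + 1 → 0 < I → I < S →
  z * D * u = z * D * z - (1 - z) * (z - I) → z * D * v = z * D * z - (1 - z) * (z - S) →
  S * (D * I * (u + D * I) + al + u) ≤ al * (u + D * I) + al + u →
  al * (v + D * S) + al + v ≤ I * (D * S * (v + D * S) + al + v) → False

/-- Piece N2UP (algebra), case `z ≤ y4`. -/
def S_N2UP : Prop := ∀ (al D z I S u y0 y1 y2 y3 y4 : ℝ), 0 < al → 0 < D → 0 < z → z < 1 →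
  z * ((D + 1) * z) = al + z → 0 < I → I ≤ z → al ≤ D * I → 0 < S →
  z * D * u = z * D * z - (1 - z) * (z - I) →
  I ≤ y0 → I ≤ y1 → y1 ≤ z → I ≤ y2 → 0 < y3 → z ≤ y4 →
  y3 * (y1 + D * y0) = al + y1 → y4 * (y2 + D * y1) = al + y2 → S * (y3 + D * y2) = al + y3 →
  S * (D * I * (u + D * I) + al + u) ≤ al * (u + D * I) + al + u

/-- Piece N2UP (algebra), case `y3 ≤ z`. -/
def S_N2UP0 : Prop := ∀ (al D z I S u y2 y3 : ℝ), 0 < al → 0 < D → 0 < z → z < 1 →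
  z * ((D + 1) * z) = al + z → 0 < I → I ≤ z → al ≤ D * I → 0 < S →
  z * D * u = z * D * z - (1 - z) * (z - I) →
  I ≤ y2 → 0 < y3 → y3 ≤ z → S * (y3 + D * y2) = al + y3 →
  S * (D * I * (u + D * I) + al + u) ≤ al * (u + D * I) + al + u

/-- Piece N2LO (algebra), case `y4 ≤ z`. -/
def S_N2LO : Prop := ∀ (al D z I S v y0 y1 y2 y3 y4 : ℝ), 0 < al → 0 < D → 0 < z → z < 1 →
  z * ((D + 1) * z) = al + z → z ≤ S → al ≤ D * z → 0 < I →
  z * D * v = z * D * z - (1 - z) * (z - S) →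
  0 < y0 → y0 ≤ S → z ≤ y1 → y1 ≤ S → y2 ≤ S → al ≤ D * y2 → 0 < y2 → 0 < y3 → 0 < y4 → y4 ≤ z →
  y3 * (y1 + D * y0) = al + y1 → y4 * (y2 + D * y1) = al + y2 → I * (y3 + D * y2) = al + y3 →
  al * (v + D * S) + al + v ≤ I * (D * S * (v + D * S) + al + v)

/-- Piece N2LO (algebra), case `z ≤ y3`. -/
def S_N2LO0 : Prop := ∀ (al D z I S v y2 y3 : ℝ), 0 < al → 0 < D → 0 < z → z < 1 →
  z * ((D + 1) * z) = al + z → z ≤ S → al ≤ D * z → 0 < I →
  z * D * v = z * D * z - (1 - z) * (z - S) →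
  y2 ≤ S → al ≤ D * y2 → 0 < y2 → z ≤ y3 → I * (y3 + D * y2) = al + y3 →
  al * (v + D * S) + al + v ≤ I * (D * S * (v + D * S) + al + v)

/-- Piece N2: a solution of (E2) which never alternates strictly around the equilibrium converges
to it, if the equilibrium satisfies the cubic inequality. -/
def S_N2 : Prop := ∀ (al D z : ℝ) (x : ℕ → ℝ), 0 < al → 0 < D → 4 * al < D - 1 →
  IsSol al 0 0 D x → 0 < z → z * (0 + (0 + D + 1) * z) = al + z →
  0 ≤ (1 + D) * (2 * D - 1) * z ^ 3 + (3 - D ^ 2) * z ^ 2 - 3 * z + 1 →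
  (∀ n, ¬ (z < x n ∧ x (n + 1) < z ∧ z < x (n + 2))) →
  (∀ n, ¬ (x n < z ∧ z < x (n + 1) ∧ x (n + 2) < z)) →
  Tendsto x atTop (𝓝 z)

/-- Piece N2D: the cubic inequality holds if `1 < D ≤ 3`. -/
def S_N2D : Prop := ∀ (D z : ℝ), 1 < D → D ≤ 3 → z ≤ 1 / 2 → 1 ≤ (1 + D) * z →
  0 ≤ (1 + D) * (2 * D - 1) * z ^ 3 + (3 - D ^ 2) * z ^ 2 - 3 * z + 1

end RR48
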