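import Pool.Agent.E8helper48.RR.Stm

/-! Absorption and monotone classes (problem MP_548f00_an). -/

namespace RR48

open Filter Topology

theorem sol_nonneg {al A B D : ℝ} {x : ℕ → ℝ} (hal : 0 ≤ al) (h : IsSol al A B D x) :
    ∀ n, 0 ≤ x n := by
  intro n
  induction n using Nat.strong_induction_on with
  | _ n ih =>
    match n, ih with
    | 0, _ => exact h.n0
    | 1, _ => exact h.n1
    | 2, _ => exact h.n2
    | (m + 3), ih =>
      rw [h.step m]
      exact div_nonneg (add_nonneg hal (ih (m + 1) (by omega))) (h.den m).le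

theorem sol_le_one {A B D : ℝ} {x : ℕ → ℝ} (hA : 0 ≤ A) (hB : 0 ≤ B) (hD : 0 < D)
    (h : IsSol 0 A B D x) (n : ℕ) : x (n + 3) ≤ 1 := by
  have hn := sol_nonneg le_rfl h
  rw [h.step n, zero_add, div_le_one (h.den n)]
  have h1 := mul_nonneg hB (hn (n + 2))
  have h2 := mul_nonneg hD.le (hn n)
  linarith

theorem mono_f {A B D u u' w w' v v' : ℝ} (hA : 0 ≤ A) (hB : 0 ≤ B) (hD : 0 < D)
    (hu' : 0 ≤ u') (hu : u' ≤ u) (hw0 : 0 ≤ w) (hv0 : 0 ≤ v) (hw : w ≤ w') (hv : v ≤ v')
    (h1 : 0 < A + B * w + u + D * v) (h2 : 0 < A + B * w' + u' + D * v') :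
    (0 + u') / (A + B * w' + u' + D * v') ≤ (0 + u) / (A + B * w + u + D * v) := by
  rw [div_le_div_iff₀ h2 h1]
  have a1 : u' * A ≤ u * A := mul_le_mul_of_nonneg_right hu hA
  have a2 : u' * (B * w) ≤ u * (B * w') :=
    mul_le_mul hu (mul_le_mul_of_nonneg_left hw hB) (mul_nonneg hB hw0) (hu'.trans hu)
  have a3 : u' * (D * v) ≤ u * (D * v') :=
    mul_le_mul hu (mul_le_mul_of_nonneg_left hv hD.le) (mul_nonneg hD.le hv0) (hu'.trans hu)
  nlinarith

theorem bound {A B D : ℝ} {x : ℕ → ℝ} (hA : 0 ≤ A) (hB : 0 ≤ B) (hD : 0 < D)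
    (h : IsSol 0 A B D x) (n : ℕ) : x n ≤ 1 + x 0 + x 1 + x 2 := by
  have h0 := h.n0
  have h1 := h.n1
  have h2 := h.n2
  match n with
  | 0 => linarith
  | 1 => linarith
  | 2 => linarith
  | (m + 3) => linarith [sol_le_one hA hB hD h m]

/-- Convergence of the two classes from `n` on. -/
theorem conv_of_classes {x : ℕ → ℝ} {a b : ℝ} (n : ℕ)
    (h1 : Tendsto (fun j => x (n + 2 * j)) atTop (𝓝 a))
    (h2 : Tendsto (fun j => x (n + 1 + 2 * j)) atTop (𝓝 b)) : Conv x := by
  rcases Nat.even_or_odd' n with ⟨m, rfl | rfl⟩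
  · refine ⟨a, b, ?_, ?_⟩
    · rw [← tendsto_add_atTop_iff_nat m]
      refine h1.congr fun j => ?_
      congr 1; ring
    · rw [← tendsto_add_atTop_iff_nat m]
      refine h2.congr fun j => ?_
      congr 1; ring
  · refine ⟨b, a, ?_, ?_⟩
    · rw [← tendsto_add_atTop_iff_nat (m + 1)]
      refine h2.congr fun j => ?_
      congr 1; ring
    · rw [← tendsto_add_atTop_iff_nat m]
      refine h1.congr fun j => ?_
      congr 1; ring

theorem conv_up {f : ℕ → ℝ} {M : ℝ} (hm : ∀ j, f j ≤ f (j + 1)) (hb : ∀ j, f j ≤ M) :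
    ∃ a, Tendsto f atTop (𝓝 a) :=
  ⟨_, tendsto_atTop_ciSup (monotone_nat_of_le_succ hm) ⟨M, by rintro _ ⟨j, rfl⟩; exact hb j⟩⟩

theorem conv_down {f : ℕ → ℝ} {M : ℝ} (hm : ∀ j, f (j + 1) ≤ f j) (hb : ∀ j, M ≤ f j) :
    ∃ a, Tendsto f atTop (𝓝 a) :=
  ⟨_, tendsto_atTop_ciInf (antitone_nat_of_succ_le hm) ⟨M, by rintro _ ⟨j, rfl⟩; exact hb j⟩⟩

/-- Upward alternation at `n`. -/
def T1 (x : ℕ → ℝ) (n : ℕ) : Prop :=
  x n ≤ x (n + 2) ∧ x (n + 3) ≤ x (n + 1) ∧ x (n + 2) ≤ x (n + 4)
/-- Downward alternation at `n`. -/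
def T2 (x : ℕ → ℝ) (n : ℕ) : Prop :=
  x (n + 2) ≤ x n ∧ x (n + 1) ≤ x (n + 3) ∧ x (n + 4) ≤ x (n + 2)

theorem T1_succ {A B D : ℝ} {x : ℕ → ℝ} (hA : 0 ≤ A) (hB : 0 ≤ B) (hD : 0 < D)
    (h : IsSol 0 A B D x) {n : ℕ} (ht : T1 x n) : T2 x (n + 1) := by
  obtain ⟨t1, t2, t3⟩ := ht
  have hn := sol_nonneg le_rfl h
  refine ⟨t2, t3, ?_⟩
  have := mono_f hA hB hD (hn _) t2 (hn _) (hn _) t3 t1 (h.den n) (h.den (n + 2))
  rw [← h.step n, ← h.step (n + 2)] at this
  exact this

theorem T2_succ {A B D : ℝ} {x : ℕ → ℝ} (hA : 0 ≤ A) (hB : 0 ≤ B) (hD : 0 < D)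
    (h : IsSol 0 A B D x) {n : ℕ} (ht : T2 x n) : T1 x (n + 1) := by
  obtain ⟨t1, t2, t3⟩ := ht
  have hn := sol_nonneg le_rfl h
  refine ⟨t2, t3, ?_⟩
  have := mono_f hA hB hD (hn _) t2 (hn _) (hn _) t3 t1 (h.den (n + 2)) (h.den n)
  rw [← h.step n, ← h.step (n + 2)] at this
  exact this

theorem T1_all {A B D : ℝ} {x : ℕ → ℝ} (hA : 0 ≤ A) (hB : 0 ≤ B) (hD : 0 < D)
    (h : IsSol 0 A B D x) {n : ℕ} (ht : T1 x n) (j : ℕ) : T1 x (n + 2 * j) := by
  induction j with
  | zero => simpa using ht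
  | succ j ih =>
    have := T2_succ hA hB hD h (T1_succ hA hB hD h ih)
    have e : n + 2 * (j + 1) = n + 2 * j + 1 + 1 := by ring
    rw [e]; exact this

theorem T2_all {A B D : ℝ} {x : ℕ → ℝ} (hA : 0 ≤ A) (hB : 0 ≤ B) (hD : 0 < D)
    (h : IsSol 0 A B D x) {n : ℕ} (ht : T2 x n) (j : ℕ) : T2 x (n + 2 * j) := by
  induction j with
  | zero => simpa using ht
  | succ j ih =>
    have := T1_succ hA hB hD h (T2_succ hA hB hD h ih)
    have e : n + 2 * (j + 1) = n + 2 * j + 1 + 1 := by ring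
    rw [e]; exact this

theorem t_ABS : S_ABS := by
  intro A B D x n hA hB hD h ht
  have hn := sol_nonneg le_rfl h
  have hb := bound hA hB hD h
  rcases ht with ht | ht
  · have h1 : ∃ a, Tendsto (fun j => x (n + 2 * j)) atTop (𝓝 a) := by
      refine conv_up (M := 1 + x 0 + x 1 + x 2) (fun j => ?_) (fun j => hb _)
      have := (T1_all hA hB hD h ht j).1
      have e : n + 2 * (j + 1) = n + 2 * j + 2 := by ring
      rw [e]; exact this
    have h2 : ∃ a, Tendsto (fun j => x (n + 1 + 2 * j)) atTop (𝓝 a) := by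
      refine conv_down (M := 0) (fun j => ?_) (fun j => hn _)
      have := (T1_all hA hB hD h ht j).2.1
      have e : n + 1 + 2 * (j + 1) = n + 2 * j + 3 := by ring
      have e' : n + 1 + 2 * j = n + 2 * j + 1 := by ring
      rw [e, e']; exact this
    obtain ⟨a, ha⟩ := h1
    obtain ⟨b, hb'⟩ := h2
    exact conv_of_classes n ha hb'
  · have h1 : ∃ a, Tendsto (fun j => x (n + 2 * j)) atTop (𝓝 a) := by
      refine conv_down (M := 0) (fun j => ?_) (fun j => hn _)
      have := (T2_all hA hB hD h ht j).1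
      have e : n + 2 * (j + 1) = n + 2 * j + 2 := by ring
      rw [e]; exact this
    have h2 : ∃ a, Tendsto (fun j => x (n + 1 + 2 * j)) atTop (𝓝 a) := by
      refine conv_up (M := 1 + x 0 + x 1 + x 2) (fun j => ?_) (fun j => hb _)
      have := (T2_all hA hB hD h ht j).2.1
      have e : n + 1 + 2 * (j + 1) = n + 2 * j + 3 := by ring
      have e' : n + 1 + 2 * j = n + 2 * j + 1 := by ring
      rw [e, e']; exact this
    obtain ⟨a, ha⟩ := h1
    obtain ⟨b, hb'⟩ := h2
    exact conv_of_classes n ha hb'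

/-- The problem for `al = 0`, from the pieces. -/
theorem conv_zero (hLIM : S_LIM) (hNZ : S_NZ) (hCON : S_CON) (hLOW : S_LOW)
    {A B D : ℝ} {x : ℕ → ℝ} (hA : 0 ≤ A) (hB : 0 ≤ B) (hD : 0 < D)
    (h : IsSol 0 A B D x) : ConvTwo 0 A B D x := by
  have hn := sol_nonneg le_rfl h
  have hc : Conv x := by
    set z : ℕ → ℝ := fun n => x (n + 3) with hz
    have hs : IsSol 0 A B D z := ⟨hn _, hn _, hn _, fun n => h.den (n + 3), fun n => h.step (n + 3)⟩
    have hzn : ∀ n, 0 ≤ z n := fun n => hn _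
    have hz1 : ∀ n, z n ≤ 1 := fun n => sol_le_one hA hB hD h n
    have key : Conv z := by
      by_cases h0 : ∃ k, z k = 0
      · obtain ⟨k, hk⟩ := h0
        have hk2 : ∀ m, z m = 0 → z (m + 2) = 0 := by
          intro m hm
          have e : z (m + 2) = _ := h.step (m + 2)
          rw [e]
          have : x (m + 2 + 1) = 0 := hm
          rw [this]; simp
        have hk4 := hk2 _ (hk2 _ hk)
        have hk22 := hk2 _ hk
        refine t_ABS A B D z k hA hB hD hs ?_
        rcases le_total (z (k + 3)) (z (k + 1)) with hle | hle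
        · left
          refine ⟨by rw [hk, hk22], hle, ?_⟩
          rw [hk22]; exact hzn _
        · right
          refine ⟨by rw [hk, hk22], hle, ?_⟩
          have : z (k + 4) = 0 := hk4
          rw [this]; exact hzn _
      · push Not at h0
        have hpos : ∀ n, 0 < z n := fun n => lt_of_le_of_ne (hzn n) (Ne.symm (h0 n))
        by_cases hT : ∃ n, T1 z n ∨ T2 z n
        · obtain ⟨n, hT⟩ := hT
          exact t_ABS A B D z n hA hB hD hs hT
        · push Not at hT
          by_cases hA1 : A < 1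
          · rcases hLOW A B D z hA hA1 hB hD hs hpos hz1 (fun n => (hT n).1)
              (fun n => (hT n).2) with ⟨ka, hka, hk⟩ | hc
            · exact hCON A B D ka z hA hB hD hka hs hk hz1 (fun n => (hT n).1) (fun n => (hT n).2)
            · exact hc
          · push Not at hA1
            have hdec : ∀ m, z (m + 3) ≤ z (m + 1) := by
              intro m
              rw [hs.step m, zero_add]
              refine div_le_self (hzn _) ?_
              have h1 := mul_nonneg hB (hzn (m + 2))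
              have h2 := mul_nonneg hD.le (hzn m)
              linarith [hzn (m + 1)]
            obtain ⟨a, ha⟩ := conv_down (f := fun j => z (1 + 2 * j)) (M := 0)
              (fun j => by
                have e : 1 + 2 * (j + 1) = 2 * j + 3 := by ring
                have e' : 1 + 2 * j = 2 * j + 1 := by ring
                simp only [e, e']; exact hdec _) (fun j => hzn _)
            obtain ⟨b, hb⟩ := conv_down (f := fun j => z (1 + 1 + 2 * j)) (M := 0)
              (fun j => by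
                have e : 1 + 1 + 2 * (j + 1) = 2 * j + 1 + 3 := by ring
                have e' : 1 + 1 + 2 * j = 2 * j + 1 + 1 := by ring
                simp only [e, e']; exact hdec _) (fun j => hzn _)
            exact conv_of_classes 1 ha hb
    obtain ⟨p, q, hp, hq⟩ := key
    refine conv_of_classes (x := x) (a := p) (b := q) 3 ?_ ?_
    · refine hp.congr fun j => ?_
      show x (2 * j + 3) = x (3 + 2 * j)
      congr 1; ring
    · refine hq.congr fun j => ?_
      show x (2 * j + 1 + 3) = x (3 + 1 + 2 * j)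
      congr 1; ring
  obtain ⟨p, q, hp, hq⟩ := hc
  rcases hA.lt_or_eq with hA' | hA'
  · exact hLIM 0 A B D x p q le_rfl hA hB hD h hp hq (Or.inl hA')
  · subst hA'
    exact hLIM 0 0 B D x p q le_rfl le_rfl hB hD h hp hq (Or.inr (hNZ B D x p q hB hD h hp hq))

end RR48
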