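import Pool.Agent.E8helper48.RR.Stm

/-! Third-order rational recurrences (problem MP_548f00_an): statements, second round
(`al > 0` when prime period-two solutions exist). -/

namespace RR48

open Filter Topology

/-- Piece MM: a solution with `al > 0` converges, or it is eventually in `[L, 1 - A]`. -/
def S_MM : Prop := ∀ (al A B D : ℝ) (x : ℕ → ℝ), 0 < al → 0 ≤ A → 0 ≤ B → 0 < D →
  IsSol al A B D x →
  (∃ z : ℝ, 0 < z ∧ Tendsto x atTop (𝓝 z)) ∨
  (∃ L > 0, ∀ᶠ n in atTop, L ≤ x n ∧ x n ≤ 1 - A)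

/-- Piece ENE: an energy decreases if `2 D (1 - A) ≤ 1 + A`, so the two-step differences tend to
zero. -/
def S_ENE : Prop := ∀ (al A B D L : ℝ) (x : ℕ → ℝ), 0 < al → 0 ≤ A → A < 1 → 0 ≤ B → 0 < D →
  2 * D * (1 - A) ≤ 1 + A → 0 < L → (∀ n, L ≤ x n ∧ x n ≤ 1 - A) → IsSol al A B D x →
  Tendsto (fun n => x (n + 2) - x n) atTop (𝓝 0)

/-- Piece FIN: a bounded solution with `al > 0` whose two-step differences tend to zero converges
along the even and along the odd indices. -/
def S_FIN : Prop := ∀ (al A B D K : ℝ) (x : ℕ → ℝ), 0 < al → 0 ≤ A → 0 ≤ B → 0 < D →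
  (∀ n, x n ≤ K) → IsSol al A B D x →
  Tendsto (fun n => x (n + 2) - x n) atTop (𝓝 0) → Conv x

/-- Piece ALT: if prime period-two solutions exist, then a solution with three consecutive terms
alternating strictly around the equilibrium `z` converges to a prime period-two solution. -/
def S_ALT : Prop := ∀ (al A B D z : ℝ) (x : ℕ → ℝ) (n : ℕ), 0 < al → 0 ≤ A → 0 ≤ B → 0 < D →
  A < 1 → 4 * al < (1 - A) ^ 2 * (B + D - 1) → IsSol al A B D x →
  0 < z → z * (A + (B + D + 1) * z) = al + z →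
  z < x n → x (n + 1) < z → z < x (n + 2) →
  ∃ p q : ℝ, 0 < q ∧ q < z ∧ z < p ∧ Tendsto (fun k => x (n + 2 * k)) atTop (𝓝 p) ∧
    Tendsto (fun k => x (n + 1 + 2 * k)) atTop (𝓝 q)

end RR48
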