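import Pool.Agent.E8helper48.RR.Abs
import Pool.Agent.E8helper48.RR.Stm2

/-! Assembly (problem MP_548f00_an). -/

namespace RR48

open Filter Topology

theorem shift_sol {al A B D : ℝ} {x : ℕ → ℝ} (hal : 0 ≤ al) (h : IsSol al A B D x) (N : ℕ) :
    IsSol al A B D (fun n => x (n + N)) where
  n0 := sol_nonneg hal h _
  n1 := sol_nonneg hal h _
  n2 := sol_nonneg hal h _
  den n := by
    have := h.den (n + N)
    have e1 : n + 2 + N = n + N + 2 := by ring
    have e2 : n + 1 + N = n + N + 1 := by ring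
    simp only [e1, e2]
    exact this
  step n := by
    have := h.step (n + N)
    have e1 : n + 2 + N = n + N + 2 := by ring
    have e2 : n + 1 + N = n + N + 1 := by ring
    have e3 : n + 3 + N = n + N + 3 := by ring
    simp only [e1, e2, e3]
    exact this

theorem conv_shift {x : ℕ → ℝ} (N : ℕ) (h : Conv (fun n => x (n + N))) : Conv x := by
  obtain ⟨p, q, hp, hq⟩ := h
  refine conv_of_classes (a := p) (b := q) N ?_ ?_
  · refine hp.congr fun j => ?_
    show x (2 * j + N) = _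
    congr 1; ring
  · refine hq.congr fun j => ?_
    show x (2 * j + 1 + N) = _
    congr 1; ring

theorem eq_limit {al A B D z : ℝ} {x : ℕ → ℝ} (h : IsSol al A B D x)
    (hx : Tendsto x atTop (𝓝 z)) : z * (A + (B + D + 1) * z) = al + z := by
  have s1 : Tendsto (fun n => x (n + 1)) atTop (𝓝 z) := (tendsto_add_atTop_iff_nat 1).2 hx
  have s2 : Tendsto (fun n => x (n + 2)) atTop (𝓝 z) := (tendsto_add_atTop_iff_nat 2).2 hx
  have s3 : Tendsto (fun n => x (n + 3)) atTop (𝓝 z) := (tendsto_add_atTop_iff_nat 3).2 hx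
  have t1 : Tendsto (fun n => x (n + 3) * (A + B * x (n + 2) + x (n + 1) + D * x n)) atTop
      (𝓝 (z * (A + B * z + z + D * z))) :=
    s3.mul (((tendsto_const_nhds.add (s2.const_mul B)).add s1).add (hx.const_mul D))
  have t2 : Tendsto (fun n => al + x (n + 1)) atTop (𝓝 (al + z)) := s1.const_add al
  have e : z * (A + B * z + z + D * z) = al + z := by
    refine tendsto_nhds_unique t1 (t2.congr fun n => ?_)
    rw [h.step n, div_mul_cancel₀ _ (h.den n).ne']
  rw [← e]; ring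

/-- The case without prime period-two solutions. -/
theorem conv_mono (hLIM : S_LIM) (hMONO : S_MONO) {al A B D : ℝ} {x : ℕ → ℝ} (hal : 0 < al)
    (hA : 0 ≤ A) (hB : 0 ≤ B) (hD : 0 < D)
    (hc : A < 1 → (1 - A) ^ 2 * (B + D - 1) ≤ 4 * al) (h : IsSol al A B D x) :
    ConvTwo al A B D x ∧
      ∃ z : ℝ, 0 < z ∧ z * (A + (B + D + 1) * z) = al + z ∧ Tendsto x atTop (𝓝 z) := by
  obtain ⟨z, hz, ht⟩ := hMONO al A B D x hal hA hB hD hc h
  refine ⟨?_, z, hz, eq_limit h ht, ht⟩
  refine hLIM al A B D x z z hal.le hA hB hD h ?_ ?_ (Or.inr (Or.inl hz))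
  · exact ht.comp (tendsto_atTop_mono (fun k => by show k ≤ 2 * k; omega) tendsto_id)
  · exact ht.comp (tendsto_atTop_mono (fun k => by show k ≤ 2 * k + 1; omega) tendsto_id)

/-- The case of the energy. -/
theorem conv_energy (hLIM : S_LIM) (hMM : S_MM) (hENE : S_ENE) (hFIN : S_FIN)
    {al A B D : ℝ} {x : ℕ → ℝ} (hal : 0 < al) (hA : 0 ≤ A) (hB : 0 ≤ B) (hD : 0 < D)
    (hc : 2 * D * (1 - A) ≤ 1 + A) (h : IsSol al A B D x) : ConvTwo al A B D x := by
  rcases hMM al A B D x hal hA hB hD h with ⟨z, hz, ht⟩ | ⟨L, hL, hev⟩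
  · refine hLIM al A B D x z z hal.le hA hB hD h ?_ ?_ (Or.inr (Or.inl hz))
    · exact ht.comp (tendsto_atTop_mono (fun k => by show k ≤ 2 * k; omega) tendsto_id)
    · exact ht.comp (tendsto_atTop_mono (fun k => by show k ≤ 2 * k + 1; omega) tendsto_id)
  · obtain ⟨N, hN⟩ := eventually_atTop.1 hev
    have hs := shift_sol hal.le h N
    have hb : ∀ n, L ≤ x (n + N) ∧ x (n + N) ≤ 1 - A := fun n => hN _ (by omega)
    have hA1 : A < 1 := by
      have := hb 0
      linarith
    have hd := hENE al A B D L (fun n => x (n + N)) hal hA hA1 hB hD hc hL hb hs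
    have hcv := conv_shift N (hFIN al A B D (1 - A) (fun n => x (n + N)) hal hA hB hD
      (fun n => (hb n).2) hs hd)
    obtain ⟨p, q, hp, hq⟩ := hcv
    refine hLIM al A B D x p q hal.le hA hB hD h hp hq (Or.inr (Or.inl ?_))
    refine hL.trans_le (ge_of_tendsto hp ?_)
    filter_upwards [eventually_ge_atTop N] with k hk
    exact (hN _ (by omega)).1

/-- The solution converges to a prime period-two solution. -/
def ConvPrime (al A B D : ℝ) (x : ℕ → ℝ) : Prop :=
  ∃ y : ℕ → ℝ, IsSol al A B D y ∧ (∀ n, y (n + 2) = y n) ∧ y 0 ≠ y 1 ∧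
    Tendsto (fun n => x n - y n) atTop (𝓝 0)

theorem per_even {y : ℕ → ℝ} (h : ∀ n, y (n + 2) = y n) (k : ℕ) : y (2 * k) = y 0 := by
  induction k with
  | zero => rfl
  | succ k ih =>
    have e : 2 * (k + 1) = 2 * k + 2 := by ring
    rw [e, h, ih]

theorem per_odd {y : ℕ → ℝ} (h : ∀ n, y (n + 2) = y n) (k : ℕ) : y (2 * k + 1) = y 1 := by
  induction k with
  | zero => rfl
  | succ k ih =>
    have e : 2 * (k + 1) + 1 = 2 * k + 1 + 2 := by ring
    rw [e, h, ih]

theorem prime_of_conv (hLIM : S_LIM) {al A B D p q : ℝ} {x : ℕ → ℝ} (hal : 0 < al)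
    (hA : 0 ≤ A) (hB : 0 ≤ B) (hD : 0 < D) (h : IsSol al A B D x)
    (hp : Tendsto (fun k => x (2 * k)) atTop (𝓝 p))
    (hq : Tendsto (fun k => x (2 * k + 1)) atTop (𝓝 q)) (hp0 : 0 < p) (hpq : p ≠ q) :
    ConvPrime al A B D x := by
  obtain ⟨y, hy, hy2, hxy⟩ := hLIM al A B D x p q hal.le hA hB hD h hp hq (Or.inr (Or.inl hp0))
  refine ⟨y, hy, hy2, ?_, hxy⟩
  have t0 : Tendsto (fun k => x (2 * k) - y (2 * k)) atTop (𝓝 0) :=
    hxy.comp (tendsto_atTop_mono (fun k => by show k ≤ 2 * k; omega) tendsto_id)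
  have t1 : Tendsto (fun k => x (2 * k + 1) - y (2 * k + 1)) atTop (𝓝 0) :=
    hxy.comp (tendsto_atTop_mono (fun k => by show k ≤ 2 * k + 1; omega) tendsto_id)
  simp only [per_even hy2, per_odd hy2] at t0 t1
  have e0 : p - y 0 = 0 := tendsto_nhds_unique (hp.sub_const (y 0)) t0
  have e1 : q - y 1 = 0 := tendsto_nhds_unique (hq.sub_const (y 1)) t1
  intro h01
  apply hpq
  linarith

theorem alt_first (hLIM : S_LIM) (hALT : S_ALT) {al A B D z : ℝ} {x : ℕ → ℝ} {n : ℕ}
    (hal : 0 < al) (hA : 0 ≤ A) (hB : 0 ≤ B) (hD : 0 < D) (hA1 : A < 1)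
    (hc : 4 * al < (1 - A) ^ 2 * (B + D - 1)) (h : IsSol al A B D x) (hz : 0 < z)
    (hze : z * (A + (B + D + 1) * z) = al + z) (h0 : z < x n) (h1 : x (n + 1) < z)
    (h2 : z < x (n + 2)) : ConvPrime al A B D x := by
  obtain ⟨p, q, hq0, hqz, hzp, hp, hq⟩ :=
    hALT al A B D z x n hal hA hB hD hA1 hc h hz hze h0 h1 h2
  rcases Nat.even_or_odd' n with ⟨m, rfl | rfl⟩
  · have hp' : Tendsto (fun k => x (2 * k)) atTop (𝓝 p) := by
      rw [← tendsto_add_atTop_iff_nat m]
      refine hp.congr fun j => ?_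
      congr 1; ring
    have hq' : Tendsto (fun k => x (2 * k + 1)) atTop (𝓝 q) := by
      rw [← tendsto_add_atTop_iff_nat m]
      refine hq.congr fun j => ?_
      congr 1; ring
    exact prime_of_conv hLIM hal hA hB hD h hp' hq' (by linarith) (by linarith : q < p).ne'
  · have hq' : Tendsto (fun k => x (2 * k)) atTop (𝓝 q) := by
      rw [← tendsto_add_atTop_iff_nat (m + 1)]
      refine hq.congr fun j => ?_
      congr 1; ring
    have hp' : Tendsto (fun k => x (2 * k + 1)) atTop (𝓝 p) := by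
      rw [← tendsto_add_atTop_iff_nat m]
      refine hp.congr fun j => ?_
      congr 1; ring
    exact prime_of_conv hLIM hal hA hB hD h hq' hp' hq0 (by linarith : q < p).ne

/-- If three consecutive terms are below, above, below the equilibrium, the next one is above. -/
theorem alt_next {al A B D z : ℝ} {x : ℕ → ℝ} {n : ℕ}
    (hal : 0 < al) (hA : 0 ≤ A) (hB : 0 ≤ B) (hD : 0 < D) (hA1 : A < 1)
    (hc : 4 * al < (1 - A) ^ 2 * (B + D - 1)) (h : IsSol al A B D x) (hz : 0 < z)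
    (hze : z * (A + (B + D + 1) * z) = al + z) (h0 : x n < z) (h1 : z < x (n + 1))
    (h2 : x (n + 2) < z) : z < x (n + 3) := by
  have hn := sol_nonneg hal.le h
  have hBD : 0 < B + D - 1 := by
    by_contra hcon
    push Not at hcon
    have := mul_nonneg (sq_nonneg (1 - A)) (by linarith : 0 ≤ -(B + D - 1))
    nlinarith
  have hz1 : z < 1 := by
    by_contra hcon
    push Not at hcon
    have e : z * (A + (B + D - 1) * z) + z * (2 * z - 1) = al := by linarith [hze]
    have q1 : (1 - A) ^ 2 ≤ 1 := by nlinarith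
    have q2 : 4 * al < B + D - 1 := hc.trans_le (by nlinarith)
    have q3 : (B + D - 1) * 1 ≤ (B + D - 1) * (z * z) :=
      mul_le_mul_of_nonneg_left (by nlinarith) hBD.le
    have q4 : 0 ≤ z * (2 * z - 1) := by nlinarith
    have q5 : 0 ≤ z * A := mul_nonneg hz.le hA
    nlinarith
  rw [h.step n, lt_div_iff₀ (h.den n)]
  -- z (A + B w + u + D v) < al + u
  have a1 : B * x (n + 2) ≤ B * z := mul_le_mul_of_nonneg_left h2.le hB
  have a2 : D * x n < D * z := mul_lt_mul_of_pos_left h0 hD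
  have a3 : z * (A + B * x (n + 2) + x (n + 1) + D * x n) <
      z * (A + B * z + x (n + 1) + D * z) := mul_lt_mul_of_pos_left (by linarith) hz
  have a4 : z * (A + B * z + x (n + 1) + D * z) = al + z + z * (x (n + 1) - z) := by
    linarith [hze]
  have a5 : z * (x (n + 1) - z) ≤ x (n + 1) - z := by nlinarith
  linarith

theorem alt_both (hLIM : S_LIM) (hALT : S_ALT) {al A B D z : ℝ} {x : ℕ → ℝ} {n : ℕ}
    (hal : 0 < al) (hA : 0 ≤ A) (hB : 0 ≤ B) (hD : 0 < D) (hA1 : A < 1)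
    (hc : 4 * al < (1 - A) ^ 2 * (B + D - 1)) (h : IsSol al A B D x) (hz : 0 < z)
    (hze : z * (A + (B + D + 1) * z) = al + z)
    (ht : (z < x n ∧ x (n + 1) < z ∧ z < x (n + 2)) ∨
      (x n < z ∧ z < x (n + 1) ∧ x (n + 2) < z)) : ConvPrime al A B D x := by
  rcases ht with ⟨h0, h1, h2⟩ | ⟨h0, h1, h2⟩
  · exact alt_first hLIM hALT hal hA hB hD hA1 hc h hz hze h0 h1 h2
  · have h3 := alt_next hal hA hB hD hA1 hc h hz hze h0 h1 h2
    exact alt_first (n := n + 1) hLIM hALT hal hA hB hD hA1 hc h hz hze h1 h2 h3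

end RR48
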