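import Pool.Agent.E8helper48.RR.Stm

/-! Third-order rational recurrences (problem MP_548f00_an): statements, third round. -/

namespace RR48

open Filter Topology

/-- Piece NAB6: six consecutive terms of a limit orbit whose last term is `c`, where `c` is a
cluster value of a bounded sequence. -/
def S_SIX : Prop := ∀ (x : ℕ → ℝ) (L K I S c : ℝ), (∀ n, L ≤ x n ∧ x n ≤ K) →
  (∀ ε > 0, ∃ N, ∀ n ≥ N, x n < S + ε) → (∀ ε > 0, ∃ N, ∀ n ≥ N, I - ε < x n) →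
  (∀ ε > 0, ∀ N, ∃ n ≥ N, |x n - c| < ε) →
  ∃ (y : ℕ → ℝ) (φ : ℕ → ℕ), y 5 = c ∧ (∀ i < 6, I ≤ y i ∧ y i ≤ S) ∧
    Tendsto φ atTop atTop ∧ ∀ i < 6, Tendsto (fun k => x (φ k + i)) atTop (𝓝 (y i))

/-- Piece NALG (algebra): `E = B + D`, `z` the equilibrium. -/
def S_NALG : Prop := ∀ (al A E z S I : ℝ), 0 < al → 0 ≤ A → 0 < E → 0 < z →
  z * (A + (E + 1) * z) = al + z →
  0 ≤ (2 * E + 1) * z ^ 2 + ((2 + E) * A - E) * z + A ^ 2 → 0 < I → I < S →
  S * ((A + E * I) * (A + E * I + z) + al + z) ≤ al * (A + E * I + z) + al + z →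
  al * (A + E * S + z) + al + z ≤ I * ((A + E * S) * (A + E * S + z) + al + z) → False

/-- Piece NAB: a solution which never alternates strictly around the equilibrium `z` converges
to `z`, if `z` satisfies the quadratic inequality. -/
def S_NAB : Prop := ∀ (al A B D z : ℝ) (x : ℕ → ℝ), 0 < al → 0 ≤ A → 0 ≤ B → 0 < D →
  IsSol al A B D x → 0 < z → z * (A + (B + D + 1) * z) = al + z →
  0 ≤ (2 * (B + D) + 1) * z ^ 2 + ((2 + (B + D)) * A - (B + D)) * z + A ^ 2 →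
  (∀ n, ¬ (z < x n ∧ x (n + 1) < z ∧ z < x (n + 2))) →
  (∀ n, ¬ (x n < z ∧ z < x (n + 1) ∧ x (n + 2) < z)) →
  Tendsto x atTop (𝓝 z)

end RR48
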