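import Pool.Agent.E8helper48.RR.Asm
import Pool.Agent.E8helper48.RR.Stm3

/-! Assembly, second part (problem MP_548f00_an). -/

namespace RR48

open Filter Topology

theorem prime_two {al A B D : ℝ} {x : ℕ → ℝ} (h : ConvPrime al A B D x) : ConvTwo al A B D x := by
  obtain ⟨y, h1, h2, -, h3⟩ := h
  exact ⟨y, h1, h2, h3⟩

/-- All solutions converge if the equilibrium satisfies the quadratic inequality. -/
theorem conv_quad (hLIM : S_LIM) (hMONO : S_MONO) (hALT : S_ALT) (hNAB : S_NAB)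
    {al A B D z : ℝ} {x : ℕ → ℝ} (hal : 0 < al) (hA : 0 ≤ A) (hB : 0 ≤ B) (hD : 0 < D)
    (h : IsSol al A B D x) (hz : 0 < z) (hze : z * (A + (B + D + 1) * z) = al + z)
    (hq : 0 ≤ (2 * (B + D) + 1) * z ^ 2 + ((2 + (B + D)) * A - (B + D)) * z + A ^ 2) :
    ConvTwo al A B D x := by
  by_cases hm : A < 1 → (1 - A) ^ 2 * (B + D - 1) ≤ 4 * al
  · exact (conv_mono hLIM hMONO hal hA hB hD hm h).1
  · push Not at hm
    obtain ⟨hA1, hc⟩ := hm
    by_cases ht : ∃ n, (z < x n ∧ x (n + 1) < z ∧ z < x (n + 2)) ∨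
      (x n < z ∧ z < x (n + 1) ∧ x (n + 2) < z)
    · obtain ⟨n, ht⟩ := ht
      exact prime_two (alt_both hLIM hALT hal hA hB hD hA1 hc h hz hze ht)
    · push Not at ht
      have ht1 : ∀ n, ¬ (z < x n ∧ x (n + 1) < z ∧ z < x (n + 2)) := fun n hh =>
        absurd hh.2.2 (not_lt.2 ((ht n).1 hh.1 hh.2.1))
      have ht2 : ∀ n, ¬ (x n < z ∧ z < x (n + 1) ∧ x (n + 2) < z) := fun n hh =>
        absurd hh.2.2 (not_lt.2 ((ht n).2 hh.1 hh.2.1))
      have hlim := hNAB al A B D z x hal hA hB hD h hz hze hq ht1 ht2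
      refine hLIM al A B D x z z hal.le hA hB hD h ?_ ?_ (Or.inr (Or.inl hz))
      · exact hlim.comp (tendsto_atTop_mono (fun k => by show k ≤ 2 * k; omega) tendsto_id)
      · exact hlim.comp (tendsto_atTop_mono (fun k => by show k ≤ 2 * k + 1; omega) tendsto_id)

/-- The equilibrium exists. -/
theorem exists_eq {al A E : ℝ} (hal : 0 < al) (hE : 0 < E) :
    ∃ z : ℝ, 0 < z ∧ z * (A + (E + 1) * z) = al + z := by
  have hE1 : 0 < E + 1 := by linarith
  have hd : 0 ≤ (1 - A) ^ 2 + 4 * (E + 1) * al := by positivity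
  set s := Real.sqrt ((1 - A) ^ 2 + 4 * (E + 1) * al) with hs
  have hs2 : s ^ 2 = (1 - A) ^ 2 + 4 * (E + 1) * al := Real.sq_sqrt hd
  have hs0 : 0 ≤ s := Real.sqrt_nonneg _
  have hpos : 0 < 1 - A + s := by
    by_contra hcon
    push Not at hcon
    have h1 : s ≤ A - 1 := by linarith
    have h2 : s ^ 2 ≤ (A - 1) ^ 2 := pow_le_pow_left₀ hs0 h1 2
    have h3 : 0 < 4 * (E + 1) * al := by positivity
    nlinarith
  refine ⟨(1 - A + s) / (2 * (E + 1)), by positivity, ?_⟩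
  field_simp
  nlinarith [hs2]

/-- The quadratic inequality for `A = 0` and `E ^ 2 ≤ E + 1`. -/
theorem quad_golden {al E z : ℝ} (hal : 0 < al) (hE : 0 < E) (hE2 : E ^ 2 ≤ E + 1) (hz : 0 < z)
    (hze : z * (0 + (E + 1) * z) = al + z) :
    0 ≤ (2 * E + 1) * z ^ 2 + ((2 + E) * 0 - E) * z + 0 ^ 2 := by
  have h1 : 1 < (E + 1) * z := by
    by_contra hcon
    push Not at hcon
    have := mul_le_mul_of_nonneg_left hcon hz.le
    nlinarith
  have h2 : E < (2 * E + 1) * z := by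
    -- E (E + 1) ≤ 2 E + 1 < (2 E + 1)(E + 1) z
    have h3 : (2 * E + 1) * 1 < (2 * E + 1) * ((E + 1) * z) :=
      mul_lt_mul_of_pos_left h1 (by linarith)
    have h4 : E * (E + 1) < (2 * E + 1) * z * (E + 1) := by nlinarith
    exact lt_of_mul_lt_mul_right h4 (by linarith)
  nlinarith [mul_lt_mul_of_pos_left h2 hz]

end RR48
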