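import Pool.Agent.E8helper48.RR.Asm2
import Pool.Agent.E8helper48.RR.Stm4

/-! Assembly, third part: the equation (E2) (problem MP_548f00_an). -/

namespace RR48

open Filter Topology

/-- All solutions of (E2) converge if the equilibrium satisfies the cubic inequality. -/
theorem conv_cubic (hLIM : S_LIM) (hMONO : S_MONO) (hALT : S_ALT) (hN2 : S_N2)
    {al D z : ℝ} {x : ℕ → ℝ} (hal : 0 < al) (hD : 0 < D)
    (h : IsSol al 0 0 D x) (hz : 0 < z) (hze : z * (0 + (0 + D + 1) * z) = al + z)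
    (hq : 0 ≤ (1 + D) * (2 * D - 1) * z ^ 3 + (3 - D ^ 2) * z ^ 2 - 3 * z + 1) :
    ConvTwo al 0 0 D x := by
  by_cases hm : (0 : ℝ) < 1 → (1 - 0) ^ 2 * (0 + D - 1) ≤ 4 * al
  · exact (conv_mono hLIM hMONO hal le_rfl le_rfl hD hm h).1
  · push Not at hm
    obtain ⟨hA1, hc⟩ := hm
    by_cases ht : ∃ n, (z < x n ∧ x (n + 1) < z ∧ z < x (n + 2)) ∨
      (x n < z ∧ z < x (n + 1) ∧ x (n + 2) < z)
    · obtain ⟨n, ht⟩ := ht
      exact prime_two (alt_both hLIM hALT hal le_rfl le_rfl hD hA1 hc h hz hze ht)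
    · push Not at ht
      have ht1 : ∀ n, ¬ (z < x n ∧ x (n + 1) < z ∧ z < x (n + 2)) := fun n hh =>
        absurd hh.2.2 (not_lt.2 ((ht n).1 hh.1 hh.2.1))
      have ht2 : ∀ n, ¬ (x n < z ∧ z < x (n + 1) ∧ x (n + 2) < z) := fun n hh =>
        absurd hh.2.2 (not_lt.2 ((ht n).2 hh.1 hh.2.1))
      have hc' : 4 * al < D - 1 := by linarith
      have hlim := hN2 al D z x hal hD hc' h hz hze hq ht1 ht2
      refine hLIM al 0 0 D x z z hal.le le_rfl le_rfl hD h ?_ ?_ (Or.inr (Or.inl hz))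
      · exact hlim.comp (tendsto_atTop_mono (fun k => by show k ≤ 2 * k; omega) tendsto_id)
      · exact hlim.comp (tendsto_atTop_mono (fun k => by show k ≤ 2 * k + 1; omega) tendsto_id)

/-- All solutions of (E2) converge if `D ≤ 3`. -/
theorem conv_three (hLIM : S_LIM) (hMONO : S_MONO) (hALT : S_ALT) (hN2 : S_N2) (hN2D : S_N2D)
    {al D : ℝ} {x : ℕ → ℝ} (hal : 0 < al) (hD : 0 < D) (hD3 : D ≤ 3)
    (h : IsSol al 0 0 D x) : ConvTwo al 0 0 D x := by
  by_cases hm : (0 : ℝ) < 1 → (1 - 0) ^ 2 * (0 + D - 1) ≤ 4 * al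
  · exact (conv_mono hLIM hMONO hal le_rfl le_rfl hD hm h).1
  · push Not at hm
    obtain ⟨hA1, hc⟩ := hm
    obtain ⟨z, hz, hze⟩ := exists_eq (al := al) (A := 0) (E := 0 + D) hal (by linarith)
    have hc' : 4 * al < D - 1 := by linarith
    have h1 : 1 ≤ (1 + D) * z := by
      by_contra hcon
      push Not at hcon
      have := mul_le_mul_of_nonneg_left hcon.le hz.le
      nlinarith
    have h2 : z ≤ 1 / 2 := by
      by_contra hcon
      push Not at hcon
      nlinarith [mul_pos (by linarith : 0 < z - 1 / 2) (by linarith : 0 < D + 1), mul_pos hz (by linarith : 0 < z - 1 / 2), mul_pos (mul_pos hz (by linarith : 0 < z - 1 / 2)) (by linarith : 0 < D + 1)]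
    exact conv_cubic hLIM hMONO hALT hN2 hal hD h hz hze (hN2D D z (by linarith) hD3 h2 h1)

/-- All solutions with `A = 0` converge if `(B + D) ^ 2 ≤ B + D + 1`. -/
theorem conv_golden (hLIM : S_LIM) (hMONO : S_MONO) (hALT : S_ALT) (hNAB : S_NAB)
    {al B D : ℝ} {x : ℕ → ℝ} (hal : 0 < al) (hB : 0 ≤ B) (hD : 0 < D)
    (hE : (B + D) ^ 2 ≤ B + D + 1) (h : IsSol al 0 B D x) : ConvTwo al 0 B D x := by
  obtain ⟨z, hz, hze⟩ := exists_eq (al := al) (A := 0) (E := B + D) hal (by linarith)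
  exact conv_quad hLIM hMONO hALT hNAB hal le_rfl hB hD h hz hze
    (quad_golden hal (by linarith) hE hz hze)

end RR48
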