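import Pool.Agent.E8helper48.RR.Asm3

/-! Assembly, fourth part: the cubic inequality (problem MP_548f00_an). -/

namespace RR48

open Filter Topology

theorem cubic_nonneg {D z : ℝ} (hD : 1 < D) (h : 4 * D ^ 2 ≤ 8 * D + 15)
    (h1 : 1 ≤ (1 + D) * z) :
    0 ≤ (1 + D) * (2 * D - 1) * z ^ 3 + (3 - D ^ 2) * z ^ 2 - 3 * z + 1 := by
  set t := (1 + D) * z - 1 with ht
  have ht0 : 0 ≤ t := by linarith
  have e : (1 + D) ^ 2 * ((1 + D) * (2 * D - 1) * z ^ 3 + (3 - D ^ 2) * z ^ 2 - 3 * z + 1) =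
      D * ((1 + (3 - 2 * D) * t / 2) ^ 2 + (15 + 8 * D - 4 * D ^ 2) / 4 * t ^ 2) +
        (2 * D - 1) * t ^ 3 := by
    rw [ht]; ring
  have h2 : 0 ≤ D * ((1 + (3 - 2 * D) * t / 2) ^ 2 + (15 + 8 * D - 4 * D ^ 2) / 4 * t ^ 2) := by
    refine mul_nonneg (by linarith) (add_nonneg (sq_nonneg _) (mul_nonneg (by linarith)
      (sq_nonneg _)))
  have h3 : 0 ≤ (2 * D - 1) * t ^ 3 := mul_nonneg (by linarith) (by positivity)
  have h4 : 0 < (1 + D) ^ 2 := by positivity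
  by_contra hcon
  push Not at hcon
  have := mul_neg_of_pos_of_neg h4 hcon
  linarith

/-- All solutions of (E2) converge if `4 D ^ 2 ≤ 8 D + 15`, i.e. `D ≤ 1 + √19 / 2 = 3.179…`. -/
theorem conv_small (hLIM : S_LIM) (hMONO : S_MONO) (hALT : S_ALT) (hN2 : S_N2)
    {al D : ℝ} {x : ℕ → ℝ} (hal : 0 < al) (hD : 0 < D) (hD3 : 4 * D ^ 2 ≤ 8 * D + 15)
    (h : IsSol al 0 0 D x) : ConvTwo al 0 0 D x := by
  by_cases hm : (0 : ℝ) < 1 → (1 - 0) ^ 2 * (0 + D - 1) ≤ 4 * al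
  · exact (conv_mono hLIM hMONO hal le_rfl le_rfl hD hm h).1
  · push Not at hm
    obtain ⟨hA1, hc⟩ := hm
    obtain ⟨z, hz, hze⟩ := exists_eq (al := al) (A := 0) (E := 0 + D) hal (by linarith)
    have h1 : 1 ≤ (1 + D) * z := by
      by_contra hcon
      push Not at hcon
      have := mul_le_mul_of_nonneg_left hcon.le hz.le
      nlinarith
    exact conv_cubic hLIM hMONO hALT hN2 hal hD h hz hze (cubic_nonneg (by linarith) hD3 h1)

end RR48
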