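import Pool.Agent.E8helper48.RR.Stm

/-! Third-order rational recurrences (problem MP_548f00_an): statements, fifth round, the
equation (E5) `x_{n+3} = (al + x_{n+1}) / (A + x_{n+1} + D x_n)` with `(1 + D) z ≤ 1`. -/

namespace RR48

open Filter Topology

/-- Piece UP5 (algebra), case `z ≤ y4`. -/
def S_UP5 : Prop := ∀ (al A D z I S y0 y1 y2 y3 y4 : ℝ), 0 < al → 0 ≤ A → 0 < D → 0 < z →
  z * (A + (D + 1) * z) = al + z → (1 + D) * z ≤ 1 → 0 < I → I < z → al ≤ A + D * I → 0 < S →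
  I ≤ y0 → I ≤ y1 → y1 ≤ z → I ≤ y2 → 0 < y3 → z ≤ y4 →
  y3 * (A + y1 + D * y0) = al + y1 → y4 * (A + y2 + D * y1) = al + y2 →
  S * (A + y3 + D * y2) = al + y3 → S * I < z ^ 2

/-- Piece UP5 (algebra), case `y3 ≤ z`. -/
def S_UP50 : Prop := ∀ (al A D z I S y2 y3 : ℝ), 0 < al → 0 ≤ A → 0 < D → 0 < z →
  z * (A + (D + 1) * z) = al + z → (1 + D) * z ≤ 1 → 0 < I → I < z → al ≤ A + D * I → 0 < S →
  I ≤ y2 → 0 < y3 → y3 ≤ z → S * (A + y3 + D * y2) = al + y3 → S * I < z ^ 2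

/-- Piece LO5 (algebra), case `y4 ≤ z`. -/
def S_LO5 : Prop := ∀ (al A D z I S y0 y1 y2 y3 y4 : ℝ), 0 < al → 0 ≤ A → 0 < D → 0 < z →
  z * (A + (D + 1) * z) = al + z → (1 + D) * z ≤ 1 → z < S → 0 < I →
  0 < y0 → y0 ≤ S → z ≤ y1 → y1 ≤ S → y2 ≤ S → al ≤ A + D * y2 → 0 < y2 → 0 < y3 → 0 < y4 →
  y4 ≤ z → y3 * (A + y1 + D * y0) = al + y1 → y4 * (A + y2 + D * y1) = al + y2 →
  I * (A + y3 + D * y2) = al + y3 → z ^ 2 ≤ I * S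

/-- Piece LO5 (algebra), case `z ≤ y3`. -/
def S_LO50 : Prop := ∀ (al A D z I S y2 y3 : ℝ), 0 < al → 0 ≤ A → 0 < D → 0 < z →
  z * (A + (D + 1) * z) = al + z → (1 + D) * z ≤ 1 → z < S → 0 < I →
  y2 ≤ S → al ≤ A + D * y2 → 0 < y2 → z ≤ y3 → I * (A + y3 + D * y2) = al + y3 → z ^ 2 ≤ I * S

/-- Piece N5: a solution of (E5) which never alternates strictly around the equilibrium `z`
converges to it, if `(1 + D) z ≤ 1`. -/
def S_N5 : Prop := ∀ (al A D z : ℝ) (x : ℕ → ℝ), 0 < al → 0 ≤ A → 0 < D →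
  IsSol al A 0 D x → 0 < z → z * (A + (0 + D + 1) * z) = al + z → (1 + D) * z ≤ 1 →
  (∀ n, ¬ (z < x n ∧ x (n + 1) < z ∧ z < x (n + 2))) →
  (∀ n, ¬ (x n < z ∧ z < x (n + 1) ∧ x (n + 2) < z)) →
  Tendsto x atTop (𝓝 z)

end RR48
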