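import Pool.Agent.E8helper48.RR.Asm4
import Pool.Agent.E8helper48.RR.Stm5

/-! Assembly, fifth part: the equation (E5) with `al (1 + D) ≤ A` (problem MP_548f00_an). -/

namespace RR48

open Filter Topology

/-- All solutions of (E5) converge if `al (1 + D) ≤ A`. -/
theorem conv_five (hLIM : S_LIM) (hMONO : S_MONO) (hALT : S_ALT) (hN5 : S_N5)
    {al A D : ℝ} {x : ℕ → ℝ} (hal : 0 < al) (hA : 0 ≤ A) (hD : 0 < D) (hc5 : al * (1 + D) ≤ A)
    (h : IsSol al A 0 D x) : ConvTwo al A 0 D x := by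
  by_cases hm : A < 1 → (1 - A) ^ 2 * (0 + D - 1) ≤ 4 * al
  · exact (conv_mono hLIM hMONO hal hA le_rfl hD hm h).1
  · push Not at hm
    obtain ⟨hA1, hc⟩ := hm
    obtain ⟨z, hz, hze⟩ := exists_eq (al := al) (A := A) (E := 0 + D) hal (by linarith)
    have hz1 : (1 + D) * z ≤ 1 := by
      by_contra hcon
      push Not at hcon
      have h1 : z * A < al := by
        have := mul_lt_mul_of_pos_left hcon hz
        nlinarith
      have h2 : z * (al * (1 + D)) ≤ z * A := mul_le_mul_of_nonneg_left hc5 hz.le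
      have h3 : al * 1 < al * ((1 + D) * z) := mul_lt_mul_of_pos_left hcon hal
      nlinarith
    by_cases ht : ∃ n, (z < x n ∧ x (n + 1) < z ∧ z < x (n + 2)) ∨
      (x n < z ∧ z < x (n + 1) ∧ x (n + 2) < z)
    · obtain ⟨n, ht⟩ := ht
      exact prime_two (alt_both hLIM hALT hal hA le_rfl hD hA1 hc h hz hze ht)
    · push Not at ht
      have ht1 : ∀ n, ¬ (z < x n ∧ x (n + 1) < z ∧ z < x (n + 2)) := fun n hh =>
        absurd hh.2.2 (not_lt.2 ((ht n).1 hh.1 hh.2.1))
      have ht2 : ∀ n, ¬ (x n < z ∧ z < x (n + 1) ∧ x (n + 2) < z) := fun n hh =>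
        absurd hh.2.2 (not_lt.2 ((ht n).2 hh.1 hh.2.1))
      have hlim := hN5 al A D z x hal hA hD h hz hze hz1 ht1 ht2
      refine hLIM al A 0 D x z z hal.le hA le_rfl hD h ?_ ?_ (Or.inr (Or.inl hz))
      · exact hlim.comp (tendsto_atTop_mono (fun k => by show k ≤ 2 * k; omega) tendsto_id)
      · exact hlim.comp (tendsto_atTop_mono (fun k => by show k ≤ 2 * k + 1; omega) tendsto_id)

end RR48
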