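import Pool.Agent.E8helper48.RR.Asm
import Pool.Agent.E8helper91.RR.MM
import Pool.Agent.E8helper44.RR.Ene

/-! An energy with a sharper upper bound for the solution (problem MP_548f00_an). Adapted from
`Pool/Agent/E8helper91/RR/MM.lean` and `Pool/Agent/E8helper44/RR/Ene.lean`. -/

set_option autoImplicit false

namespace RR48

open Filter Topology
open Pool.Agent.E8helper73.RR (quad bounds)
open Pool.Agent.E8helper91.RR (alg2)
open Pool.Agent.E8helper44.RR (en)

/-- the inequalities -/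
theorem alg3 {al A B D I S v u w v' u' w' : ℝ} (hal : 0 < al) (hA : 0 ≤ A) (hB : 0 ≤ B)
    (hD : 0 < D) (hI : 0 < I) (hIS : I ≤ S)
    (hv : I ≤ v ∧ v ≤ S) (hu : I ≤ u ∧ u ≤ S) (hw : I ≤ w ∧ w ≤ S)
    (hv' : I ≤ v' ∧ v' ≤ S) (hu' : I ≤ u' ∧ u' ≤ S) (hw' : I ≤ w' ∧ w' ≤ S)
    (h1 : S * (A + B * w + u + D * v) = al + u)
    (h2 : I * (A + B * w' + u' + D * v') = al + u') :
    I = S ∨ (A + S + I ≤ 1 ∧ al ≤ (B + D - 1) * (S * (1 - A - S))) := by
  rcases alg2 hA hB hD hI hIS hv hu hw hv' hu' hw' h1 h2 with h | h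
  · exact Or.inl h
  have hS : 0 < S := hI.trans_le hIS
  have h2a : al ≤ I * (A + (B + D) * S) + (I - 1) * u' := by
    have e1 : 0 ≤ I * (B * (S - w')) := mul_nonneg hI.le (mul_nonneg hB (by linarith [hw'.2]))
    have e2 : 0 ≤ I * (D * (S - v')) := mul_nonneg hI.le (mul_nonneg hD.le (by linarith [hv'.2]))
    linarith [e1, e2, h2]
  have hI1 : I ≤ 1 := by linarith
  have h2b : (I - 1) * u' ≤ (I - 1) * I := by
    have : 0 ≤ (1 - I) * (u' - I) := mul_nonneg (by linarith) (by linarith [hu'.1])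
    linarith [this]
  have h3 : I * S ≤ I * (1 - A - I) := mul_le_mul_of_nonneg_left (by linarith) hI.le
  have h4 : al ≤ (B + D - 1) * (S * I) := by linarith
  have hE : 0 < B + D - 1 := by
    by_contra hcon
    push Not at hcon
    have : 0 ≤ (1 - B - D) * (S * I) := mul_nonneg (by linarith) (mul_pos hS hI).le
    linarith
  have h5 : (B + D - 1) * (S * I) ≤ (B + D - 1) * (S * (1 - A - S)) :=
    mul_le_mul_of_nonneg_left (mul_le_mul_of_nonneg_left (by linarith) hS.le) hE.le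
  exact Or.inr ⟨h, h4.trans h5⟩

/-- A solution converges, or its upper limit `S` satisfies `al ≤ (B + D - 1) S (1 - A - S)`. -/
theorem bnd {al A B D : ℝ} {x : ℕ → ℝ} (hal : 0 < al) (hA : 0 ≤ A) (hB : 0 ≤ B) (hD : 0 < D)
    (hx : IsSol al A B D x) : (∃ z : ℝ, 0 < z ∧ Tendsto x atTop (𝓝 z)) ∨
    (∃ L > 0, ∃ S > 0, S < 1 - A ∧ al ≤ (B + D - 1) * (S * (1 - A - S)) ∧
      ∀ ε > 0, ∀ᶠ n in atTop, L ≤ x n ∧ x n ≤ S + ε) := by
  obtain ⟨L, K, hL, hb⟩ := bounds hal hA hB hD hx
  obtain ⟨y, hy⟩ : ∃ y : ℕ → ℝ, y = fun n => x (n + 3) := ⟨_, rfl⟩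
  have hyb : ∀ n, y n ∈ Set.Icc L K := by
    intro n
    rw [hy]
    exact hb n
  have hstep : ∀ n, y (n + 3) * (A + B * y (n + 2) + y (n + 1) + D * y n) = al + y (n + 1) := by
    intro n
    rw [hy]
    show x (n + 3 + 3) * (A + B * x (n + 3 + 2) + x (n + 3 + 1) + D * x (n + 3)) =
      al + x (n + 3 + 1)
    rw [hx.step (n + 3), div_mul_cancel₀ _ (hx.den (n + 3)).ne']
  have hbU : atTop.IsBoundedUnder (· ≤ ·) y := isBoundedUnder_of ⟨K, fun n => (hyb n).2⟩
  have hbL : atTop.IsBoundedUnder (· ≥ ·) y := isBoundedUnder_of ⟨L, fun n => (hyb n).1⟩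
  obtain ⟨S, hS⟩ : ∃ S, S = limsup y atTop := ⟨_, rfl⟩
  obtain ⟨I, hI⟩ : ∃ I, I = liminf y atTop := ⟨_, rfl⟩
  have hup : ∀ ε > 0, ∃ N, ∀ n ≥ N, y n < S + ε := by
    intro ε hε
    exact eventually_atTop.1 (eventually_lt_of_limsup_lt (by rw [← hS]; linarith) hbU)
  have hlo : ∀ ε > 0, ∃ N, ∀ n ≥ N, I - ε < y n := by
    intro ε hε
    exact eventually_atTop.1 (eventually_lt_of_lt_liminf (by rw [← hI]; linarith) hbL)
  have hcS : ∀ ε > 0, ∀ N, ∃ n ≥ N, |y n - S| < ε := by
    intro ε hε N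
    obtain ⟨N', hN'⟩ := hup ε hε
    have hf : ∃ᶠ n in atTop, S - ε < y n :=
      frequently_lt_of_lt_limsup hbL.isCoboundedUnder_le (by rw [← hS]; linarith)
    obtain ⟨n, hn, h1⟩ := frequently_atTop.1 hf (max N N')
    refine ⟨n, (le_max_left _ _).trans hn, ?_⟩
    have h2 := hN' n ((le_max_right _ _).trans hn)
    rw [abs_lt]
    constructor <;> linarith
  have hcI : ∀ ε > 0, ∀ N, ∃ n ≥ N, |y n - I| < ε := by
    intro ε hε N
    obtain ⟨N', hN'⟩ := hlo ε hε
    have hf : ∃ᶠ n in atTop, y n < I + ε :=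
      frequently_lt_of_liminf_lt hbU.isCoboundedUnder_ge (by rw [← hI]; linarith)
    obtain ⟨n, hn, h1⟩ := frequently_atTop.1 hf (max N N')
    refine ⟨n, (le_max_left _ _).trans hn, ?_⟩
    have h2 := hN' n ((le_max_right _ _).trans hn)
    rw [abs_lt]
    constructor <;> linarith
  have hIL : L ≤ I := by
    rw [hI]
    exact le_liminf_of_le hbU.isCoboundedUnder_ge (Eventually.of_forall fun n => (hyb n).1)
  have hI0 : 0 < I := hL.trans_le hIL
  have hIS : I ≤ S := by
    rw [hI, hS]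
    exact liminf_le_limsup hbU hbL
  obtain ⟨v, u, w, hv, hu, hw, φ, l1, l2, l3, l4⟩ := quad hyb hup hlo hcS
  obtain ⟨v', u', w', hv', hu', hw', φ', l1', l2', l3', l4'⟩ := quad hyb hup hlo hcI
  have e1 : S * (A + B * w + u + D * v) = al + u := by
    have t1 : Tendsto (fun k => y (φ k + 3) * (A + B * y (φ k + 2) + y (φ k + 1) + D * y (φ k)))
        atTop (𝓝 (S * (A + B * w + u + D * v))) :=
      l4.mul (((tendsto_const_nhds.add (l3.const_mul B)).add l2).add (l1.const_mul D))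
    have t2 : Tendsto (fun k => al + y (φ k + 1)) atTop (𝓝 (al + u)) := l2.const_add al
    refine tendsto_nhds_unique t1 (t2.congr fun k => ?_)
    exact (hstep (φ k)).symm
  have e2 : I * (A + B * w' + u' + D * v') = al + u' := by
    have t1 : Tendsto (fun k => y (φ' k + 3) * (A + B * y (φ' k + 2) + y (φ' k + 1) + D * y (φ' k)))
        atTop (𝓝 (I * (A + B * w' + u' + D * v'))) :=
      l4'.mul (((tendsto_const_nhds.add (l3'.const_mul B)).add l2').add (l1'.const_mul D))
    have t2 : Tendsto (fun k => al + y (φ' k + 1)) atTop (𝓝 (al + u')) := l2'.const_add al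
    refine tendsto_nhds_unique t1 (t2.congr fun k => ?_)
    exact (hstep (φ' k)).symm
  rcases alg3 hal hA hB hD hI0 hIS hv hu hw hv' hu' hw' e1 e2 with hIS' | ⟨hsum, hq⟩
  · left
    refine ⟨I, hI0, ?_⟩
    have hyt : Tendsto y atTop (𝓝 I) :=
      tendsto_of_liminf_eq_limsup hI.symm (by rw [← hS, hIS']) hbU hbL
    rw [hy] at hyt
    exact (tendsto_add_atTop_iff_nat 3).1 hyt
  · right
    refine ⟨L, hL, S, hI0.trans_le hIS, by linarith, hq, fun ε hε => ?_⟩
    obtain ⟨N, hN⟩ := hup ε hε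
    rw [eventually_atTop]
    refine ⟨N + 3, fun n hn => ?_⟩
    obtain ⟨m, rfl⟩ : ∃ m, n = m + 3 := ⟨n - 3, by omega⟩
    have h1 := hN m (by omega)
    have h2 := (hyb m).1
    rw [hy] at h1 h2
    exact ⟨h2, h1.le⟩

/-- a lower bound for `t - 1 - log t`, `t ≤ 1` -/
theorem log_low {t : ℝ} (ht : 0 < t) (h1 : t ≤ 1) : (t - 1) ^ 2 / 2 ≤ t - 1 - Real.log t := by
  have hd : ∀ s ∈ Set.Ioi (0 : ℝ), HasDerivAt (fun s => s - 1 - Real.log s - (s - 1) ^ 2 / 2)
      (-((s - 1) ^ 2 / s)) s := by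
    intro s hs
    have hs0 : s ≠ 0 := (Set.mem_Ioi.1 hs).ne'
    have e1 := (((hasDerivAt_id s).sub_const 1).sub (Real.hasDerivAt_log hs0)).sub
      ((((hasDerivAt_id s).sub_const 1).pow 2).div_const 2)
    refine e1.congr_deriv ?_
    simp only [id]
    field_simp
    ring
  have ha : AntitoneOn (fun s : ℝ => s - 1 - Real.log s - (s - 1) ^ 2 / 2) (Set.Ioi 0) := by
    refine antitoneOn_of_deriv_nonpos (convex_Ioi 0)
      (fun s hs => (hd s hs).continuousAt.continuousWithinAt) ?_ ?_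
    · intro s hs
      rw [interior_Ioi] at hs
      exact (hd s hs).differentiableAt.differentiableWithinAt
    · intro s hs
      rw [interior_Ioi] at hs
      rw [(hd s hs).deriv]
      have : 0 < s := hs
      have : 0 ≤ (s - 1) ^ 2 / s := by positivity
      linarith
  have := ha (Set.mem_Ioi.2 ht) (Set.mem_Ioi.2 zero_lt_one) h1
  simp only [sub_self, Real.log_one] at this
  norm_num at this
  linarith

/-- a lower bound for `t - 1 - log t`, `1 ≤ t` -/
theorem log_up {t : ℝ} (h1 : 1 ≤ t) : (t - 1) ^ 2 / (2 * t) ≤ t - 1 - Real.log t := by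
  have hd : ∀ s ∈ Set.Ioi (0 : ℝ), HasDerivAt (fun s => (s - s⁻¹) / 2 - Real.log s)
      ((1 - s⁻¹) ^ 2 / 2) s := by
    intro s hs
    have hs0 : s ≠ 0 := (Set.mem_Ioi.1 hs).ne'
    have e1 := (((hasDerivAt_id s).sub (hasDerivAt_inv hs0)).div_const 2).sub
      (Real.hasDerivAt_log hs0)
    refine e1.congr_deriv ?_
    field_simp
    ring
  have ha : MonotoneOn (fun s : ℝ => (s - s⁻¹) / 2 - Real.log s) (Set.Ioi 0) := by
    refine monotoneOn_of_deriv_nonneg (convex_Ioi 0)
      (fun s hs => (hd s hs).continuousAt.continuousWithinAt) ?_ ?_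
    · intro s hs
      rw [interior_Ioi] at hs
      exact (hd s hs).differentiableAt.differentiableWithinAt
    · intro s hs
      rw [interior_Ioi] at hs
      rw [(hd s hs).deriv]
      positivity
  have ht : 0 < t := zero_lt_one.trans_le h1
  have := ha (Set.mem_Ioi.2 zero_lt_one) (Set.mem_Ioi.2 ht) h1
  simp only [inv_one, sub_self, Real.log_one] at this
  have e2 : (t - 1) ^ 2 / (2 * t) = t - 1 - (t - t⁻¹) / 2 := by
    field_simp
    ring
  rw [e2]
  norm_num at this
  linarith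

/-- the decrease of the energy in one step -/
theorem step2 {al A B D U v u w y : ℝ} (hal : 0 < al) (hD : 0 < D) (hU : 0 < U)
    (hu : 0 < u) (hy : 0 < y) (huU : u ≤ U) (hyU : y ≤ U)
    (he : y * (A + B * w + u + D * v) = al + u) :
    (en al A y + en al A w + (B + D) * y * w + D / 2 * (y - u) ^ 2) -
      (en al A w + en al A u + (B + D) * w * u + D / 2 * (w - v) ^ 2) ≤
      -((2 * U + al - (2 * D + 1) * U ^ 2) / (2 * U ^ 2) * (y - u) ^ 2) := by
  set t := u / y with ht
  have ht0 : 0 < t := div_pos hu hy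
  set r := y⁻¹ with hr
  have hry : r * y = 1 := inv_mul_cancel₀ hy.ne'
  have hru : r * u = t := by rw [ht, hr]; ring
  have hlog : Real.log t = Real.log u - Real.log y := Real.log_div hu.ne' hy.ne'
  have h1 : B * w + D * v = al * r + t - A - u := by
    have : r * (y * (A + B * w + u + D * v)) = r * (al + u) := by rw [he]
    have h2 : r * (y * (A + B * w + u + D * v)) = (A + B * w + u + D * v) := by
      rw [← mul_assoc, hry, one_mul]
    rw [h2] at this
    linear_combination this + hru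
  have key : (en al A y + en al A w + (B + D) * y * w + D / 2 * (y - u) ^ 2) -
      (en al A w + en al A u + (B + D) * w * u + D / 2 * (w - v) ^ 2) =
      -(r - 1 / 2) * (y - u) ^ 2 - al * (t - 1 - Real.log t) + D * (w - v) * (y - u) +
        D / 2 * (y - u) ^ 2 - D / 2 * (w - v) ^ 2 := by
    unfold en
    rw [hlog]
    linear_combination (y - u) * h1 + (y - u) * (hry - hru) * (y - u) * 0 +
      ((y - u) * (hry - hru)) + al * (hry - hru)
  have q1 : U⁻¹ ≤ r := inv_anti₀ hy hyU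
  have q2 : D * (w - v) * (y - u) ≤ D / 2 * (y - u) ^ 2 + D / 2 * (w - v) ^ 2 := by
    have h5 : 0 ≤ D / 2 * ((w - v) - (y - u)) ^ 2 := by positivity
    linarith
  have q5 : (y - u) ^ 2 / (2 * U ^ 2) ≤ t - 1 - Real.log t := by
    rcases le_total u y with huy | huy
    · have ht1 : t ≤ 1 := by rw [ht, div_le_one hy]; exact huy
      refine le_trans ?_ (log_low ht0 ht1)
      have e3 : (t - 1) ^ 2 / 2 = (y - u) ^ 2 / (2 * y ^ 2) := by
        rw [ht]
        field_simp
        ring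
      rw [e3]
      refine div_le_div_of_nonneg_left (sq_nonneg _) (by positivity) ?_
      have := pow_le_pow_left₀ hy.le hyU 2
      linarith
    · have ht1 : 1 ≤ t := by rw [ht, one_le_div hy]; exact huy
      refine le_trans ?_ (log_up ht1)
      have e3 : (t - 1) ^ 2 / (2 * t) = (y - u) ^ 2 / (2 * (u * y)) := by
        rw [ht]
        field_simp
        ring
      rw [e3]
      refine div_le_div_of_nonneg_left (sq_nonneg _) (by positivity) ?_
      have := mul_le_mul huU hyU hy.le hU.le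
      rw [pow_two]
      linarith
  have q6 : al / (2 * U ^ 2) * (y - u) ^ 2 ≤ al * (t - 1 - Real.log t) := by
    have := mul_le_mul_of_nonneg_left q5 hal.le
    calc al / (2 * U ^ 2) * (y - u) ^ 2 = al * ((y - u) ^ 2 / (2 * U ^ 2)) := by ring
      _ ≤ _ := this
  have q7 : (2 * U + al - (2 * D + 1) * U ^ 2) / (2 * U ^ 2) =
      U⁻¹ + al / (2 * U ^ 2) - D - 1 / 2 := by
    field_simp
    ring
  have q8 : U⁻¹ * (y - u) ^ 2 ≤ r * (y - u) ^ 2 := mul_le_mul_of_nonneg_right q1 (sq_nonneg _)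
  rw [key, q7]
  linarith

/-- The energy argument. -/
theorem ene2 {al A B D L U : ℝ} {x : ℕ → ℝ} (hal : 0 < al) (hA : 0 ≤ A)
    (hB : 0 ≤ B) (hD : 0 < D) (hU1 : U ≤ 1) (hc : (2 * D + 1) * U ^ 2 < 2 * U + al) (hL : 0 < L)
    (hx : ∀ n, L ≤ x n ∧ x n ≤ U) (hsol : IsSol al A B D x) :
    Tendsto (fun n => x (n + 2) - x n) atTop (𝓝 0) := by
  have hU : 0 < U := hL.trans_le ((hx 0).1.trans (hx 0).2)
  set V : ℕ → ℝ := fun n => en al A (x (n + 2)) + en al A (x (n + 1)) +
    (B + D) * x (n + 2) * x (n + 1) + D / 2 * (x (n + 2) - x n) ^ 2 with hV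
  have hpos : ∀ n, 0 < x n := fun n => hL.trans_le (hx n).1
  set c : ℝ := (2 * U + al - (2 * D + 1) * U ^ 2) / (2 * U ^ 2) with hcdef
  have hc0 : 0 < c := div_pos (by linarith) (by positivity)
  have hstep : ∀ n, V (n + 1) - V n ≤ -(c * (x (n + 3) - x (n + 1)) ^ 2) := by
    intro n
    have hq : x (n + 3) * (A + B * x (n + 2) + x (n + 1) + D * x n) = al + x (n + 1) := by
      rw [hsol.step n]
      exact div_mul_cancel₀ _ (hsol.den n).ne'
    exact step2 (v := x n) (u := x (n + 1)) (w := x (n + 2)) (y := x (n + 3)) (B := B)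
      hal hD hU (hpos _) (hpos _) (hx _).2 (hx _).2 hq
  have hanti : Antitone V := antitone_nat_of_succ_le fun n => by
    have h := hstep n
    have : 0 ≤ c * (x (n + 3) - x (n + 1)) ^ 2 := by positivity
    linarith
  have hen : ∀ n, -1 ≤ en al A (x n) := by
    intro n
    have h0 := hpos n
    have h1 := (hx n).2
    have hl : Real.log (x n) ≤ 0 := Real.log_nonpos h0.le (by linarith)
    unfold en
    have : 0 ≤ -(al * Real.log (x n)) := by
      have := mul_nonneg hal.le (neg_nonneg.2 hl)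
      linarith
    have h2 : (1 - A) * x n ≤ 1 := by nlinarith
    nlinarith [sq_nonneg (x n)]
  have hbdd : BddBelow (Set.range V) := by
    refine ⟨-2, ?_⟩
    rintro _ ⟨n, rfl⟩
    have h1 := hen (n + 2)
    have h2 := hen (n + 1)
    have h3 : 0 ≤ (B + D) * x (n + 2) * x (n + 1) := by
      have := (hpos (n + 2)).le
      have := (hpos (n + 1)).le
      positivity
    have h4 : 0 ≤ D / 2 * (x (n + 2) - x n) ^ 2 := by positivity
    simp only [hV]
    linarith
  have hlim := tendsto_atTop_ciInf hanti hbdd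
  have hdiff : Tendsto (fun n => V n - V (n + 1)) atTop (𝓝 0) := by
    have := hlim.sub (hlim.comp (tendsto_add_atTop_nat 1))
    simpa using this
  have hsq : ∀ n, (x (n + 3) - x (n + 1)) ^ 2 ≤ c⁻¹ * (V n - V (n + 1)) := by
    intro n
    have h := hstep n
    rw [← div_eq_inv_mul, le_div_iff₀ hc0]
    linarith
  have hsq0 : Tendsto (fun n => (x (n + 3) - x (n + 1)) ^ 2) atTop (𝓝 0) := by
    refine squeeze_zero (fun n => sq_nonneg _) hsq ?_
    simpa using hdiff.const_mul c⁻¹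
  have habs : Tendsto (fun n => x (n + 3) - x (n + 1)) atTop (𝓝 0) := by
    have h := (Real.continuous_sqrt.tendsto 0).comp hsq0
    rw [Real.sqrt_zero] at h
    refine (tendsto_zero_iff_abs_tendsto_zero _).2 (h.congr fun n => ?_)
    simp only [Function.comp]
    rw [Real.sqrt_sq_eq_abs]
  have h3 : Tendsto (fun n => x (n + 1 + 2) - x (n + 1)) atTop (𝓝 0) := habs
  exact (tendsto_add_atTop_iff_nat (f := fun n => x (n + 2) - x n) 1).1 h3

/-- The case of the energy with the sharper bound. -/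
theorem conv_energy2 (hLIM : S_LIM) (hFIN : S_FIN)
    {al A B D : ℝ} {x : ℕ → ℝ} (hal : 0 < al) (hA : 0 ≤ A) (hB : 0 ≤ B) (hD : 0 < D)
    (hc : ∀ s : ℝ, 0 < s → s < 1 - A → al ≤ (B + D - 1) * (s * (1 - A - s)) →
      (2 * D + 1) * s ^ 2 < 2 * s + al) (h : IsSol al A B D x) : ConvTwo al A B D x := by
  rcases bnd hal hA hB hD h with ⟨z, hz, ht⟩ | ⟨L, hL, S, hS, hS1, hq, hev⟩
  · refine hLIM al A B D x z z hal.le hA hB hD h ?_ ?_ (Or.inr (Or.inl hz))
    · exact ht.comp (tendsto_atTop_mono (fun k => by show k ≤ 2 * k; omega) tendsto_id)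
    · exact ht.comp (tendsto_atTop_mono (fun k => by show k ≤ 2 * k + 1; omega) tendsto_id)
  · have hcS := hc S hS hS1 hq
    obtain ⟨U, hU1, hU2, hU3⟩ : ∃ U : ℝ, (2 * D + 1) * U ^ 2 < 2 * U + al ∧ S < U ∧ U < 1 - A := by
      have hcont : Continuous fun U : ℝ => 2 * U + al - (2 * D + 1) * U ^ 2 := by fun_prop
      have e1 : ∀ᶠ U in 𝓝 S, 0 < 2 * U + al - (2 * D + 1) * U ^ 2 :=
        hcont.continuousAt.eventually (lt_mem_nhds (by linarith))
      have e2 : ∀ᶠ U in 𝓝[>] S, U ∈ Set.Ioo S (1 - A) := Ioo_mem_nhdsGT hS1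
      obtain ⟨U, h1, h2⟩ := ((e1.filter_mono nhdsWithin_le_nhds).and e2).exists
      exact ⟨U, by linarith, h2.1, h2.2⟩
    obtain ⟨N, hN⟩ := eventually_atTop.1 (hev (U - S) (by linarith))
    have hs := shift_sol hal.le h N
    have hb : ∀ n, L ≤ x (n + N) ∧ x (n + N) ≤ U := fun n => by
      have := hN (n + N) (by omega)
      exact ⟨this.1, by linarith [this.2]⟩
    have hd := ene2 hal hA hB hD (by linarith) hU1 hL hb hs
    have hcv := conv_shift N (hFIN al A B D U (fun n => x (n + N)) hal hA hB hD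
      (fun n => (hb n).2) hs hd)
    obtain ⟨p, q, hp, hq⟩ := hcv
    refine hLIM al A B D x p q hal.le hA hB hD h hp hq (Or.inr (Or.inl ?_))
    refine hL.trans_le (ge_of_tendsto hp ?_)
    filter_upwards [eventually_ge_atTop N] with k hk
    exact (hN _ (by omega)).1

end RR48
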