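import Mathlib

/-! Third-order rational recurrences `x_{n+3} = (al + x_{n+1}) / (A + B x_{n+2} + x_{n+1} + D x_n)`
(problem MP_548f00_an): definitions and statements of the pieces. -/

namespace RR48

open Filter Topology

/-- A solution of `x_{n+3} = (al + x_{n+1}) / (A + B x_{n+2} + x_{n+1} + D x_n)` with nonnegative
initial values and all denominators positive (the index is shifted by two: `x 0` is `x_{-2}`). -/
structure IsSol (al A B D : ℝ) (x : ℕ → ℝ) : Prop where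
  n0 : 0 ≤ x 0
  n1 : 0 ≤ x 1
  n2 : 0 ≤ x 2
  den : ∀ n, 0 < A + B * x (n + 2) + x (n + 1) + D * x n
  step : ∀ n, x (n + 3) = (al + x (n + 1)) / (A + B * x (n + 2) + x (n + 1) + D * x n)

/-- The solution converges to a (not necessarily prime) period-two solution. -/
def ConvTwo (al A B D : ℝ) (x : ℕ → ℝ) : Prop :=
  ∃ y : ℕ → ℝ, IsSol al A B D y ∧ (∀ n, y (n + 2) = y n) ∧
    Tendsto (fun n => x n - y n) atTop (𝓝 0)

/-- The subsequences of even and of odd index converge. -/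
def Conv (x : ℕ → ℝ) : Prop := ∃ p q : ℝ, Tendsto (fun k => x (2 * k)) atTop (𝓝 p) ∧
    Tendsto (fun k => x (2 * k + 1)) atTop (𝓝 q)

/-- Piece LIM: if the two subsequences converge and the limit is admissible then the solution
converges to a period-two solution. -/
def S_LIM : Prop := ∀ (al A B D : ℝ) (x : ℕ → ℝ) (p q : ℝ), 0 ≤ al → 0 ≤ A → 0 ≤ B → 0 < D →
  IsSol al A B D x → Tendsto (fun k => x (2 * k)) atTop (𝓝 p) →
  Tendsto (fun k => x (2 * k + 1)) atTop (𝓝 q) → (0 < A ∨ 0 < p ∨ 0 < q) →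
  ConvTwo al A B D x

/-- Piece NZ: for `al = 0 = A` the two limits are not both zero. -/
def S_NZ : Prop := ∀ (B D : ℝ) (x : ℕ → ℝ) (p q : ℝ), 0 ≤ B → 0 < D →
  IsSol 0 0 B D x → Tendsto (fun k => x (2 * k)) atTop (𝓝 p) →
  Tendsto (fun k => x (2 * k + 1)) atTop (𝓝 q) → (0 < p ∨ 0 < q)

/-- Piece MONO: if there is no prime period-two solution then every solution converges to the
(positive) equilibrium. -/
def S_MONO : Prop := ∀ (al A B D : ℝ) (x : ℕ → ℝ), 0 < al → 0 ≤ A → 0 ≤ B → 0 < D →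
  (A < 1 → (1 - A) ^ 2 * (B + D - 1) ≤ 4 * al) → IsSol al A B D x →
  ∃ z : ℝ, 0 < z ∧ Tendsto x atTop (𝓝 z)

/-- Piece CON (contraction): `al = 0`, all terms bounded below, and no three consecutive two-step
differences alternate weakly: then both subsequences converge. -/
def S_CON : Prop := ∀ (A B D ka : ℝ) (x : ℕ → ℝ), 0 ≤ A → 0 ≤ B → 0 < D → 0 < ka →
  IsSol 0 A B D x → (∀ n, ka ≤ x n) → (∀ n, x n ≤ 1) →
  (∀ n, ¬ (x n ≤ x (n + 2) ∧ x (n + 3) ≤ x (n + 1) ∧ x (n + 2) ≤ x (n + 4))) →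
  (∀ n, ¬ (x (n + 2) ≤ x n ∧ x (n + 1) ≤ x (n + 3) ∧ x (n + 4) ≤ x (n + 2))) →
  Conv x

/-- Piece LOW (lower bound): `al = 0`, all terms in `(0,1]`, `A < 1`, no three consecutive
two-step differences alternate weakly: either the terms are bounded below, or the two
subsequences converge. -/
def S_LOW : Prop := ∀ (A B D : ℝ) (x : ℕ → ℝ), 0 ≤ A → A < 1 → 0 ≤ B → 0 < D →
  IsSol 0 A B D x → (∀ n, 0 < x n) → (∀ n, x n ≤ 1) →
  (∀ n, ¬ (x n ≤ x (n + 2) ∧ x (n + 3) ≤ x (n + 1) ∧ x (n + 2) ≤ x (n + 4))) →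
  (∀ n, ¬ (x (n + 2) ≤ x n ∧ x (n + 1) ≤ x (n + 3) ∧ x (n + 4) ≤ x (n + 2))) →
  (∃ ka > 0, ∀ n, ka ≤ x n) ∨ Conv x

/-- Piece ABS (absorption): `al = 0` and one alternating triple of two-step differences: both
subsequences converge. -/
def S_ABS : Prop := ∀ (A B D : ℝ) (x : ℕ → ℝ) (n : ℕ), 0 ≤ A → 0 ≤ B → 0 < D →
  IsSol 0 A B D x → 
  ((x n ≤ x (n + 2) ∧ x (n + 3) ≤ x (n + 1) ∧ x (n + 2) ≤ x (n + 4)) ∨
    (x (n + 2) ≤ x n ∧ x (n + 1) ≤ x (n + 3) ∧ x (n + 4) ≤ x (n + 2))) →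
  Conv x

end RR48
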